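import Pool.Agent.BEF.Defs
import Pool.Agent.BEH.Defs

/-!
# Squad BEN (MP_be01ff_an): the final state theorem in all dimensions. Definitions.

`X = L^∞`, `H = L²`; jets `(x_0, …, x_s)` with `x_j ∈ L^(2s/j)`, `s = d`.
-/

namespace Pool.Agent.BEN

open Set Filter Topology MeasureTheory
open scoped InnerProductSpace ENNReal
open Pool.Agent.BE01 Pool.Agent.BEF

noncomputable section

/-! ## The operators -/

/-- `e` is the inclusion of `X = L^∞` in `H = L²`; `S = L^(-1)`, `R = L^(-1/2)`, `C τ`, `Sn τ` the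
cosine and sine of `τ L^(1/2)`; `SX` is `S` on `L^∞`. -/
structure Wx (X H : Type) [NormedCommRing X] [NormedAlgebra ℝ X] [NormedAddCommGroup H]
    [InnerProductSpace ℝ H] where
  e : X →L[ℝ] H
  S : H →L[ℝ] H
  R : H →L[ℝ] H
  C : ℝ → H →L[ℝ] H
  Sn : ℝ → H →L[ℝ] H
  SX : X →L[ℝ] X
  e_inj : Function.Injective e
  prp : Prp H S R C Sn
  e_SX : ∀ x, e (SX x) = S (e x)

section lin

variable {H : Type} [NormedAddCommGroup H] [InnerProductSpace ℝ H]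

/-- `∫ T τ (f (t + τ)) dτ` over `τ > 0`. -/
def cI (T : ℝ → H →L[ℝ] H) (f : ℝ → H) (t : ℝ) : H := ∫ τ in Ioi (0 : ℝ), T τ (f (t + τ))

end lin

/-! ## The approximate solution, with values in `X` -/

section apx

variable {X H : Type} [NormedCommRing X] [NormedAlgebra ℝ X] [NormedAddCommGroup H]
  [InnerProductSpace ℝ H] {m : ℕ}

/-- The wave `Σ (x_i cos ψ + y_i sin ψ) φ_i`, `z = (x, y)`. -/
def qx (φ : Fin m → X) (ψ : ℝ) (z : Fin m ⊕ Fin m → ℝ) : X :=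
  ∑ i, (z (Sum.inl i) * Real.cos ψ + z (Sum.inr i) * Real.sin ψ) • φ i

/-- Its derivative `Σ (- x_i sin ψ + y_i cos ψ) φ_i`. -/
def px (φ : Fin m → X) (ψ : ℝ) (z : Fin m ⊕ Fin m → ℝ) : X :=
  ∑ i, (z (Sum.inr i) * Real.cos ψ - z (Sum.inl i) * Real.sin ψ) • φ i

/-- Solvability in `X` of `q - n² ω² S q = F` for odd `3 ≤ n ≤ M`, and for `n = 1` if `F` is
orthogonal to the `φ i`. -/
structure Slx (W : Wx X H) (ω : ℝ) (φ : Fin m → X) (M : ℕ) : Prop where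
  one : ∀ F : X, (∀ i, ⟪W.e F, W.e (φ i)⟫_ℝ = 0) → ∃ q : X, q - (ω ^ 2) • W.SX q = F
  odd : ∀ n : ℕ, Odd n → 3 ≤ n → n ≤ M → ∀ F : X, ∃ q : X, q - ((n : ℝ) ^ 2 * ω ^ 2) • W.SX q = F

/-- The eigenvectors. -/
def Evx (W : Wx X H) (ω : ℝ) (φ : Fin m → X) : Prop :=
  Orthonormal ℝ (fun i => W.e (φ i)) ∧ ∀ i, (ω ^ 2) • W.SX (φ i) = φ i

/-- The data of an approximate solution `u = P(ψ, z)`, `P = S q`, with a residual of degree `d`. -/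
structure Apn (W : Wx X H) (p : ℕ) (a0 ω : ℝ) (φ : Fin m → X) (d : ℕ)
    (F : Fin m ⊕ Fin m → MvPolynomial (Fin m ⊕ Fin m) ℝ)
    (P q R : ℝ → (Fin m ⊕ Fin m → ℝ) → X) : Prop where
  F_mem : ∀ i, F i ∈ GP (Fin m ⊕ Fin m) (2 * p + 1)
  P_eq : ∀ ψ z, P ψ z = W.SX (q ψ z)
  q_eq : ∃ q' ∈ GE (Fin m ⊕ Fin m) X 3, ∀ ψ z, q ψ z = (ω ^ 2) • qx φ ψ z + q' ψ z
  R_mem : R ∈ GE (Fin m ⊕ Fin m) X d
  res : ∀ ψ z, DF ω F (DF ω F P) ψ z + q ψ z + a0 • (DF ω F P ψ z ^ (2 * p + 1)) = R ψ z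

/-- The lower bound of the damping on the eigenspace. -/
def Dmp (W : Wx X H) (p : ℕ) (φ : Fin m → X) (c : ℝ) : Prop :=
  ∀ z : Fin m ⊕ Fin m → ℝ, c * (∑ i, z i ^ 2) ^ (p + 1) ≤
    ∫ ψ in (0 : ℝ)..(2 * Real.pi), ⟪W.e (px φ ψ z ^ (2 * p + 1)), W.e (px φ ψ z)⟫_ℝ

/-- The approximate solution as a function of time: `w 0, …, w s` the velocity and its derivatives,
`r 0, …, r s` the residual and its derivatives. -/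
structure Tmx (W : Wx X H) (s p : ℕ) (a0 k t1 b N1 c C : ℝ) (w r : ℕ → ℝ → X) (g : ℝ → X) :
    Prop where
  t1_le : 1 ≤ t1
  c_pos : 0 < c
  w_der : ∀ j < s, ∀ t > t1, HasDerivAt (w j) (w (j + 1) t) t
  w_cont : ContinuousOn (w s) (Ioi t1)
  w_le : ∀ j ≤ s, ∀ t > t1, ‖w j t‖ ≤ b * t ^ (-(1 / (2 * (p : ℝ))))
  r_der : ∀ j < s, ∀ t > t1, HasDerivAt (r j) (r (j + 1) t) t
  r_cont : ContinuousOn (r s) (Ioi t1)
  r_le : ∀ j ≤ s, ∀ t > t1, ‖r j t‖ ≤ N1 * t ^ (-k)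
  w_SX : ∀ t > t1, ∃ y : X, w 0 t = W.SX y
  g_cont : ContinuousOn g (Ioi t1)
  g_der : ∀ t > t1, HasDerivAt (fun r => W.SX (g r)) (w 0 t) t
  res : ∀ t > t1, r 0 t = w 1 t + g t + a0 • (w 0 t ^ (2 * p + 1))
  en : ∀ t > t1, c * t ^ (-(1 / (p : ℝ))) ≤ ‖W.e (w 0 t)‖ ^ 2 + ‖W.R (W.e (g t))‖ ^ 2 ∧
    ‖W.e (w 0 t)‖ ^ 2 + ‖W.R (W.e (g t))‖ ^ 2 ≤ C * t ^ (-(1 / (p : ℝ)))

/-- The solution. -/
def Slu (W : Wx X H) (p : ℕ) (a0 : ℝ) : Prop :=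
  ∃ (t0 c C : ℝ) (u : ℝ → H) (x : ℝ → X) (k w h : ℝ → H), 1 ≤ t0 ∧ 0 < c ∧
    ContinuousOn w (Ioi t0) ∧ ContinuousOn h (Ioi t0) ∧
    ∀ t > t0, HasDerivAt u (W.e (x t)) t ∧ HasDerivAt (fun s => W.e (x s)) (w t) t ∧
      W.e (x t) = W.S (k t) ∧ u t = W.S (h t) ∧
      w t + h t + a0 • W.e (x t ^ (2 * p + 1)) = 0 ∧
      c * t ^ (- (1 / (p : ℝ))) ≤ ‖W.e (x t)‖ ^ 2 + ⟪h t, W.S (h t)⟫_ℝ ∧
      ‖W.e (x t)‖ ^ 2 + ⟪h t, W.S (h t)⟫_ℝ ≤ C * t ^ (- (1 / (p : ℝ)))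

end apx

/-! ## Jets, abstractly -/

section jet

variable (J : Type) [NormedAddCommGroup J] [NormedSpace ℝ J]

/-- A space of jets with a product, and the set `Cu t0` of the curves `x : (t0, ∞) → J` such that
each component is the derivative of the previous one. -/
structure Jax where
  mul : J →L[ℝ] J →L[ℝ] J
  nmul : ℝ
  nmul_pos : 1 ≤ nmul
  mul_le : ∀ x y, ‖mul x y‖ ≤ nmul * ‖x‖ * ‖y‖
  Cu : ℝ → (ℝ → J) → Prop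
  cont : ∀ t0 x, Cu t0 x → ContinuousOn x (Ioi t0)
  congr : ∀ t0 x y, Cu t0 x → (∀ t > t0, y t = x t) → Cu t0 y
  mono : ∀ t0 t1 x, t0 ≤ t1 → Cu t0 x → Cu t1 x
  zero : ∀ t0, Cu t0 (fun _ => 0)
  add : ∀ t0 x y, Cu t0 x → Cu t0 y → Cu t0 (fun t => x t + y t)
  smul : ∀ t0 (c : ℝ) x, Cu t0 x → Cu t0 (fun t => c • x t)
  mul_mem : ∀ t0 x y, Cu t0 x → Cu t0 y → Cu t0 (fun t => mul (x t) (y t))
  lim : ∀ t0 (x : ℕ → ℝ → J) (y : ℝ → J), (∀ n, Cu t0 (x n)) →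
    TendstoUniformlyOn x y atTop (Ioi t0) → Cu t0 y

variable {J}

/-- The power `x ^ (n + 1)`. -/
def pj (A : Jax J) : ℕ → J → J
  | 0, x => x
  | n + 1, x => A.mul x (pj A n x)

/-- The operator `K` giving the velocity of the solution of the wave equation with source `f` that
vanishes at infinity. -/
structure Ksl (A : Jax J) (C0 : ℝ) (K : (ℝ → J) → ℝ → J) : Prop where
  cu : ∀ (t0 m N : ℝ) (f : ℝ → J), 1 ≤ t0 → 1 < m → A.Cu t0 f → (∀ t > t0, ‖f t‖ ≤ N * t ^ (-m)) →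
    A.Cu t0 (K f) ∧ ∀ t > t0, ‖K f t‖ ≤ C0 * (1 / (m - 1) + 1 / t0) * N * t ^ (1 - m)
  sub : ∀ (t0 m N : ℝ) (f g : ℝ → J), 1 ≤ t0 → 1 < m → A.Cu t0 f → A.Cu t0 g →
    (∀ t > t0, ‖f t‖ ≤ N * t ^ (-m)) → (∀ t > t0, ‖g t‖ ≤ N * t ^ (-m)) →
    ∀ t > t0, K (fun r => f r - g r) t = K f t - K g t

variable {X H : Type} [NormedCommRing X] [NormedAlgebra ℝ X] [NormedAddCommGroup H]
  [InnerProductSpace ℝ H]

/-- The link between the jets and `X`, `H`: components `pr j : J → H`, the component `x0 : J → X`,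
the jets `jt w` of functions with values in `X`. -/
structure Jlk (W : Wx X H) (s : ℕ) (A : Jax J) (cj : ℝ) where
  pr : ℕ → J →L[ℝ] H
  x0 : J →L[ℝ] X
  e_x0 : ∀ x, W.e (x0 x) = pr 0 x
  x0_mul : ∀ x y, x0 (A.mul x y) = x0 x * x0 y
  der : ∀ t0 x, A.Cu t0 x → ∀ j < s, ∀ t > t0,
    HasDerivAt (fun r => pr j (x r)) (pr (j + 1) (x t)) t
  jt : (ℕ → X) → J
  x0_jt : ∀ w, x0 (jt w) = w 0
  pr_jt : ∀ w, ∀ j ≤ s, pr j (jt w) = W.e (w j)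
  jt_le : ∀ (w : ℕ → X) (M : ℝ), 0 ≤ M → (∀ j ≤ s, ‖w j‖ ≤ M) → ‖jt w‖ ≤ cj * M
  cu_jt : ∀ (t0 : ℝ) (w : ℕ → ℝ → X), (∀ j < s, ∀ t > t0, HasDerivAt (w j) (w (j + 1) t) t) →
    ContinuousOn (w s) (Ioi t0) → A.Cu t0 (fun t => jt (fun j => w j t))

/-- The components of `K f`. -/
def Kpr {W : Wx X H} {s : ℕ} {A : Jax J} {cj : ℝ} (L : Jlk W s A cj)
    (K : (ℝ → J) → ℝ → J) : Prop :=
  ∀ (t0 m N : ℝ) (f : ℝ → J), 1 ≤ t0 → 1 < m → A.Cu t0 f → (∀ t > t0, ‖f t‖ ≤ N * t ^ (-m)) →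
    ∀ j ≤ s, ∀ t > t0, L.pr j (K f t) = cI W.C (fun r => L.pr j (f r)) t

end jet

/-! ## Jets, concretely -/

/-- The exponents `2s/j`. -/
def qe (s j : ℕ) : ℝ≥0∞ := max 1 (((2 * s : ℕ) : ℝ≥0∞) / (j : ℝ≥0∞))

instance qe_fact (s j : ℕ) : Fact (1 ≤ qe s j) := ⟨le_max_left _ _⟩

variable {T : Type} [MeasurableSpace T]

/-- The jets `(x_0, …, x_s)`, `x_j ∈ L^(2s/j)`. -/
abbrev Jt (s : ℕ) (μ : Measure T) : Type := ∀ j : Fin (s + 1), Lp ℝ (qe s (j : ℕ)) μ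

/-- The component `i` of a jet, as a function (`0` if `i > s`). -/
def cmp {s : ℕ} {μ : Measure T} (x : Jt s μ) (i : ℕ) : T → ℝ :=
  if h : i < s + 1 then (x ⟨i, h⟩ : T → ℝ) else fun _ => 0

/-- The curves of jets: `x` is continuous with values in `Jt s μ` and `(x_j)' = x_(j+1)` in
`L^(2s/(j+1))`. -/
def Cuj (s : ℕ) (μ : Measure T) (t0 : ℝ) (x : ℝ → Jt s μ) : Prop :=
  ContinuousOn x (Ioi t0) ∧ ∀ j : Fin s,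
    ∀ ι : Lp ℝ (qe s (j.castSucc : ℕ)) μ →L[ℝ] Lp ℝ (qe s (j.succ : ℕ)) μ, (∀ y, ι y =ᵐ[μ] y) →
    ∀ t > t0, HasDerivAt (fun r => ι (x r j.castSucc)) (x t j.succ) t

/-- The properties of `X = L^∞`. -/
structure Xok {μ : Measure T} {X : Type} [NormedCommRing X] [NormedAlgebra ℝ X]
    (W : Wx X (Lp ℝ 2 μ)) : Prop where
  le : ∀ x, ∀ᵐ z ∂μ, |W.e x z| ≤ ‖x‖
  lift : ∀ (h : Lp ℝ 2 μ) (C : ℝ), 0 ≤ C → (∀ᵐ z ∂μ, |h z| ≤ C) → ∃ x, W.e x = h ∧ ‖x‖ ≤ C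
  mul : ∀ x x', W.e (x * x') =ᵐ[μ] fun z => W.e x z * W.e x' z
  one : W.e 1 =ᵐ[μ] fun _ => 1

/-- The bounds of `S : L^(2s/(j+2)) → L^(2s/j)` and of `R : L² → L^(2s/(s-1))`. -/
structure Sbd {μ : Measure T} {X : Type} [NormedCommRing X] [NormedAlgebra ℝ X]
    (W : Wx X (Lp ℝ 2 μ)) (s : ℕ) (C0 : ℝ) : Prop where
  S : ∀ j, j + 2 ≤ s → ∀ f : Lp ℝ 2 μ,
    eLpNorm (W.S f) (qe s j) μ ≤ ENNReal.ofReal C0 * eLpNorm f (qe s (j + 2)) μ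
  R : ∀ f : Lp ℝ 2 μ, eLpNorm (W.R f) (qe s (s - 1)) μ ≤ ENNReal.ofReal (C0 * ‖f‖)

/-- The link with the domain `Ω`. -/
structure Wok {d : ℕ} (Ω : Set (En d)) {X : Type} [NormedCommRing X] [NormedAlgebra ℝ X]
    (W : Wx X (Lp ℝ 2 (mu Ω))) (Z : Lp ℝ 2 (mu Ω) →L[ℝ] Lp (En d) 2 (mu Ω)) : Prop where
  comp : IsCompactOperator W.S
  dom : ∀ h, (W.S h, Z h) ∈ H10 Ω
  nrm : ∀ h, ‖Z h‖ ^ 2 = ⟪h, W.S h⟫_ℝ
  weak : ∀ h ψ, Tst Ω ψ →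
    ∫ x, ⟪Z h x, gradient ψ x⟫_ℝ ∂(mu Ω) = ∫ x, h x * ψ x ∂(mu Ω)
  eig : ∀ (l : ℝ) (u : Lp ℝ 2 (mu Ω)), IsEig Ω l u ↔ u = l • W.S u

/-- The exponent of the Sobolev inequality, `2 < 8d/(4d-5) < 2d/(d-2)`. -/
def pS (d : ℕ) : ℝ := 8 * d / (4 * d - 5)

end

end Pool.Agent.BEN
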