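import Pool.Agent.BEN.Defs
import Pool.Agent.BEF.Stmts

/-!
# Squad BEN (MP_be01ff_an): the final state theorem in all dimensions. Statements, part A: the
approximate solution (with values in `X = L^∞`), and the nonlinear problem for jets.

PLAN.  `Ω ⊂ ℝ^d` bounded open, `d ≥ 2` arbitrary, `α = 2p`.  As in squad BEF, but everything in the
approximate solution has values in the algebra `X = L^∞` (`S` maps `X` to `X`), and the remainder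
is found in the space of the jets `(x_0, …, x_s)`, `x_j ∈ L^(2s/j)`, `s = d` (for `d ≤ 3` squad BE01
used `L^∞, L⁴, L²`).

PART A1: the rows QPX REX BAX STX APN NEX LDN LEN ASN are COPIES of the rows QPW REZ BAZ STZ APZ NEZ
LDX LDE ASZ of squad BEF (table bef, all proved: copy the file and edit) with the following
changes: `q`, `R`, `φ i` are in `X` and not in `H`; `SX : X → X`; `⟨·,·⟩` becomes
`⟪W.e ·, W.e ·⟫`; as `SX (ω² φ_i) = φ_i` the first approximation is `P_1 = qx φ` itself.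
The proved rows GPR GLI GDV DFL CHA GBD GPW TRZ GSM of BEF may be imported.
-/

namespace Pool.Agent.BEN

open Set Filter Topology MeasureTheory
open scoped InnerProductSpace ENNReal
open Pool.Agent.BE01 Pool.Agent.BEF

noncomputable section

/-! ## Part A1: the approximate solution -/

/-- QPX: the linear wave (copy QPW).  New: the bounds, `|z_i cos ψ + z_j sin ψ| ≤ 2 ‖z‖`. -/
def QpxStmt : Prop := ∀ (X H : Type) [NormedCommRing X] [NormedAlgebra ℝ X]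
  [NormedAddCommGroup H] [InnerProductSpace ℝ H] (W : Wx X H) (m : ℕ) (φ : Fin m → X)
  (F : Fin m ⊕ Fin m → MvPolynomial (Fin m ⊕ Fin m) ℝ),
  qx φ ∈ HG (Fin m ⊕ Fin m) X 1 ∧ px φ ∈ HG (Fin m ⊕ Fin m) X 1 ∧
  dp (qx φ) = px φ ∧ dp (px φ) = - qx φ ∧
  (∀ ψ z, dv F (qx φ) ψ z = qx φ ψ (vf F z)) ∧ (∀ ψ z, dv F (px φ) ψ z = px φ ψ (vf F z)) ∧
  (∀ ψ z, ‖qx φ ψ z‖ ≤ 2 * (∑ i, ‖φ i‖) * ‖z‖ ∧ ‖px φ ψ z‖ ≤ 2 * (∑ i, ‖φ i‖) * ‖z‖) ∧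
  (Orthonormal ℝ (fun i => W.e (φ i)) →
    ∀ ψ z, ‖W.e (qx φ ψ z)‖ ^ 2 + ‖W.e (px φ ψ z)‖ ^ 2 = ∑ i, z i ^ 2)

/-- REX: the equation in degree `2e+1` (copy REZ).  For `j = 1`: `h' = h - Σ ⟨e h, e φ_i⟩ φ_i`. -/
def RexStmt : Prop := ∀ (X H : Type) [NormedCommRing X] [NormedAlgebra ℝ X]
  [NormedAddCommGroup H] [InnerProductSpace ℝ H] (W : Wx X H) (m e : ℕ) (ω : ℝ)
  (φ : Fin m → X) (R : ℝ → (Fin m ⊕ Fin m → ℝ) → X), 0 < ω → Evx W ω φ →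
  Slx W ω φ (2 * e + 1) → R ∈ HG (Fin m ⊕ Fin m) X (2 * e + 1) →
  ∃ (F' : Fin m ⊕ Fin m → MvPolynomial (Fin m ⊕ Fin m) ℝ) (q : ℝ → (Fin m ⊕ Fin m → ℝ) → X),
    (∀ i, (F' i).IsHomogeneous (2 * e + 1)) ∧ q ∈ HG (Fin m ⊕ Fin m) X (2 * e + 1) ∧
    (∀ ψ z, (2 * ω) • px φ ψ (vf F' z) + (ω ^ 2) • W.SX (dp (dp q) ψ z) + q ψ z = - R ψ z) ∧
    ∀ z, 2 * ω * Real.pi * ∑ i, z i * vf F' z i =
      - ∫ ψ in (0 : ℝ)..(2 * Real.pi), ⟪W.e (R ψ z), W.e (px φ ψ z)⟫_ℝ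

/-- BAX: the approximation of degree 1 (uses GLI, GDV, DFL, QPX, GPW; copy BAZ).  `F = 0`,
`P = qx = SX (ω² qx)`, `D P = ω px`, `D D P = - ω² qx`, `D D P + q = 0`. -/
def BaxStmt : Prop := ∀ (X H : Type) [NormedCommRing X] [NormedAlgebra ℝ X]
  [NormedAddCommGroup H] [InnerProductSpace ℝ H] (W : Wx X H) (m p : ℕ) (a0 ω : ℝ)
  (φ : Fin m → X), Evx W ω φ →
  ∃ R ∈ HG (Fin m ⊕ Fin m) X (2 * p + 1),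
    Apn W p a0 ω φ (2 * p + 1) 0 (qx φ) (fun ψ z => (ω ^ 2) • qx φ ψ z) R ∧
    ∀ ψ z, R ψ z = a0 • ((ω • px φ ψ z) ^ (2 * p + 1))

/-- STX: from one degree to the next (uses GPR, GLI, GDV, DFL, GPW, QPX, REX; copy STZ).  Everything
is in `X`: `D⁺ D⁺ P⁺ + q⁺ + a0 (D⁺ P⁺)^(2p+1)`, the two mixed terms are
`ω dv F' (dp P_1) = ω px φ ψ (F' z)` and `ω dp (dv F' P_1) = ω px φ ψ (F' z)` with `P_1 = qx φ`. -/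
def StxStmt : Prop := ∀ (X H : Type) [NormedCommRing X] [NormedAlgebra ℝ X]
  [NormedAddCommGroup H] [InnerProductSpace ℝ H] (W : Wx X H) (m p e : ℕ) (a0 ω : ℝ)
  (φ : Fin m → X) (F : Fin m ⊕ Fin m → MvPolynomial (Fin m ⊕ Fin m) ℝ)
  (P q R1 R2 : ℝ → (Fin m ⊕ Fin m → ℝ) → X), 1 ≤ p → p ≤ e → 0 < ω → Evx W ω φ →
  Slx W ω φ (2 * e + 1) → R1 ∈ HG (Fin m ⊕ Fin m) X (2 * e + 1) →
  R2 ∈ GE (Fin m ⊕ Fin m) X (2 * e + 3) → Apn W p a0 ω φ (2 * e + 1) F P q (R1 + R2) →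
  ∃ (F' : Fin m ⊕ Fin m → MvPolynomial (Fin m ⊕ Fin m) ℝ)
    (P' q' R' : ℝ → (Fin m ⊕ Fin m → ℝ) → X), (∀ i, (F' i).IsHomogeneous (2 * e + 1)) ∧
    Apn W p a0 ω φ (2 * e + 3) (F + F') P' q' R' ∧
    ∀ z, 2 * ω * Real.pi * ∑ i, z i * vf F' z i =
      - ∫ ψ in (0 : ℝ)..(2 * Real.pi), ⟪W.e (R1 ψ z), W.e (px φ ψ z)⟫_ℝ

/-- APN: approximations of all degrees (uses GLI, BAX, STX; copy APZ). -/
def ApnStmt : Prop := ∀ (X H : Type) [NormedCommRing X] [NormedAlgebra ℝ X]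
  [NormedAddCommGroup H] [InnerProductSpace ℝ H] (W : Wx X H) (m p N : ℕ) (a0 ω : ℝ)
  (φ : Fin m → X), 1 ≤ p → 0 < ω → Evx W ω φ → Slx W ω φ (2 * (p + N) + 1) →
  ∃ (F1 F2 : Fin m ⊕ Fin m → MvPolynomial (Fin m ⊕ Fin m) ℝ)
    (P q R : ℝ → (Fin m ⊕ Fin m → ℝ) → X),
    (∀ i, (F1 i).IsHomogeneous (2 * p + 1)) ∧ (∀ i, F2 i ∈ GP (Fin m ⊕ Fin m) (2 * p + 3)) ∧
    Apn W p a0 ω φ (2 * (p + N) + 3) (F1 + F2) P q R ∧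
    ∀ z, 2 * ω * Real.pi * ∑ i, z i * vf F1 z i = - ∫ ψ in (0 : ℝ)..(2 * Real.pi),
      ⟪W.e (a0 • ((ω • px φ ψ z) ^ (2 * p + 1))), W.e (px φ ψ z)⟫_ℝ

/-- NEX: the damping is strictly negative (uses QPX; copy NEZ): `W.e` is injective, so
`px φ ψ z ≠ 0` implies that the integrand is positive. -/
def NexStmt : Prop := ∀ (X H : Type) [NormedCommRing X] [NormedAlgebra ℝ X]
  [NormedAddCommGroup H] [InnerProductSpace ℝ H] (W : Wx X H) (m p : ℕ) (ω : ℝ)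
  (φ : Fin m → X), 1 ≤ p → Evx W ω φ →
  (∀ x : X, x ≠ 0 → 0 < ⟪W.e (x ^ (2 * p + 1)), W.e x⟫_ℝ) → ∃ c > 0, Dmp W p φ c

/-- NEO: one eigenfunction (no hypotheses).  `px φ ψ z = (y cos ψ - x sin ψ) φ`, so the integral is
`⟪e φ^(2p+1), e φ⟫ ∫ (y cos ψ - x sin ψ)^(2p+2) dψ`, and `y cos ψ - x sin ψ = r cos (ψ + θ)`,
`r² = x² + y²`; the integral over a period does not depend on `θ`. -/
def NeoStmt : Prop := ∀ (X H : Type) [NormedCommRing X] [NormedAlgebra ℝ X]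
  [NormedAddCommGroup H] [InnerProductSpace ℝ H] (W : Wx X H) (p : ℕ) (β : ℝ) (φ : X),
  β ≤ ⟪W.e (φ ^ (2 * p + 1)), W.e φ⟫_ℝ →
  0 < (∫ ψ in (0 : ℝ)..(2 * Real.pi), Real.cos ψ ^ (2 * p + 2)) ∧
  Dmp W p (fun _ : Fin 1 => φ) (β * ∫ ψ in (0 : ℝ)..(2 * Real.pi), Real.cos ψ ^ (2 * p + 2))

/-- LDN: bounds of the derivatives of the approximate solution (uses GLI, GDV, DFL, GBD, QPX;
compare LDX).  `P = qx + P~`, `P~ = SX q' ∈ GE 3`.  By induction on `j`: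
`D^j P = ω^j dp^j (qx) + (GE 3)` (`D = ω dp + dv F`, `dv F` raises the degree by `2p ≥ 2`, `D` maps
`GE 3` to `GE 3`), and `dp^j (qx) = ± qx` or `± px`.  Bounds of QPX, and GBD for the term in `GE 3`,
`‖z‖³ ≤ ‖z‖²`. -/
def LdnStmt : Prop := ∀ (X H : Type) [NormedCommRing X] [NormedAlgebra ℝ X]
  [NormedAddCommGroup H] [InnerProductSpace ℝ H] (W : Wx X H) (m p s : ℕ) (a0 ω : ℝ)
  (φ : Fin m → X) (d : ℕ) (F : Fin m ⊕ Fin m → MvPolynomial (Fin m ⊕ Fin m) ℝ)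
  (P q R : ℝ → (Fin m ⊕ Fin m → ℝ) → X), 1 ≤ p → 0 < ω → Evx W ω φ →
  Apn W p a0 ω φ d F P q R →
  ∃ C : ℝ, 0 ≤ C ∧ ∀ j ≤ s, ∀ ψ z, ‖z‖ ≤ 1 →
    ‖((DF ω F)^[j + 1] P) ψ z‖ ≤ 2 * ω ^ (j + 1) * (∑ i, ‖φ i‖) * ‖z‖ + C * ‖z‖ ^ 2

/-- LEN: the energy of the approximate solution (uses GLI, GDV, DFL, GBD, QPX; copy LDE).
`e (D P) = ω e px + (GE 3)`, `R e q = ω² R e qx + (GE 3)`,
`‖ω² R e qx‖² = ω⁴ ⟨e qx, S e qx⟩ = ω² ‖e qx‖²`. -/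
def LenStmt : Prop := ∀ (X H : Type) [NormedCommRing X] [NormedAlgebra ℝ X]
  [NormedAddCommGroup H] [InnerProductSpace ℝ H] (W : Wx X H) (m p : ℕ) (a0 ω : ℝ)
  (φ : Fin m → X) (d : ℕ) (F : Fin m ⊕ Fin m → MvPolynomial (Fin m ⊕ Fin m) ℝ)
  (P q R : ℝ → (Fin m ⊕ Fin m → ℝ) → X), 1 ≤ p → 0 < ω → Evx W ω φ →
  Apn W p a0 ω φ d F P q R →
  ∃ δ : ℝ, 0 < δ ∧ ∀ ψ z, ‖z‖ ≤ δ →
    ω ^ 2 / 2 * ∑ i, z i ^ 2 ≤ ‖W.e (DF ω F P ψ z)‖ ^ 2 + ‖W.R (W.e (q ψ z))‖ ^ 2 ∧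
    ‖W.e (DF ω F P ψ z)‖ ^ 2 + ‖W.R (W.e (q ψ z))‖ ^ 2 ≤ 2 * ω ^ 2 * ∑ i, z i ^ 2

/-- ASN: the approximate solution as a function of time (uses GLI, GDV, DFL, CHA, GBD, APN, TRZ, LDN,
LEN; compare ASZ).  From APN and `Dmp`:
`Σ z_i F1_i(z) = - (a0 ω^(2p)/(2π)) ∫ ⟨e px^(2p+1), e px⟩ ≤ - c0 s^(p+1)`,
`c0 = a0 ω^(2p) β/(2π)`, `s = Σ z_i²`.  TRZ: `‖z‖^(2p) ≤ s^p ≤ 2/(p c0 t) = 4π/(p a0 ω^(2p) β t)`, so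
`‖z‖ ≤ ω⁻¹ (4π/(p a0 β))^(1/(2p)) t^(-1/(2p))`.  By LDN, for `t > t1` (`t1` so large that
`C ‖z‖ ≤ ω`) `‖D^(j+1) P‖ ≤ (2 ω^(j+1) B + ω) ‖z‖`, so `b = (2 (max 1 B)^s B + 1)
(4π/(p a0 β))^(1/(2p))` is suitable, and `a0 b^(2p) = b0 := (2 (max 1 B)^s B + 1)^(2p) 4π/(p β)`
does not depend on `a0, ω`, nor on the degree.  Choose `N` (depending on `s, p, κ, B, β` only)
such that `k := (2(p+N)+3)/(2p) > max 2 (κ b0 + 1)`; `M = 2(p+N)+1`.  `ψ t = ω t`,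
`w j t = (D^(j+1) P)(ψ t, z t)`, `g t = q(ψ t, z t)`, `r j t = (D^j R)(ψ t, z t)` (CHA, DFL:
`D` maps `GE d` to itself), `‖r j t‖ ≤ C ‖z‖^d ≤ N1 t^(-k)`.  `w 0 = SX ((D q)(ψ, z))`, as `D` commutes
with `SX` (DFL).  Energy: LEN and the bounds of TRZ for `s`.  For `t1` large also `‖z‖ ≤ δ`, `≤ 1`.
For `Tmx.g_der`: `SX (g t) = P(ψ t, z t)`. -/
def AsnStmt : Prop := ∀ (s p : ℕ) (κ B β : ℝ), 1 ≤ p → 0 ≤ κ → 0 < B → 0 < β → ∃ M : ℕ,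
  ∀ (X H : Type) [NormedCommRing X] [NormedAlgebra ℝ X] [NormedAddCommGroup H]
  [InnerProductSpace ℝ H] (W : Wx X H) (m : ℕ) (a0 ω : ℝ) (φ : Fin m → X), 1 ≤ m → 0 < a0 →
  0 < ω → ω ≤ B → ∑ i, ‖φ i‖ ≤ B → Evx W ω φ → Dmp W p φ β → Slx W ω φ M →
  ∃ (k t1 b N1 c C : ℝ) (w r : ℕ → ℝ → X) (g : ℝ → X), 2 < k ∧
    a0 * κ * b ^ (2 * p) < k - 1 ∧ Tmx W s p a0 k t1 b N1 c C w r g

/-! ## Part A2: the nonlinear problem for jets -/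

/-- LIX: the linear wave equation (uses LiaStmt, LibStmt of squad BE01 as hypotheses; copy the proof
of LIC, `Pool/Agent/Helper*_BE01/LIC.lean`, see also LID).  Integrals converge by LIA.
`u t = - ∫ R (Sn τ (f0 (t + τ))) = - R (cI Sn f0 t)`; `u' = cI C f0`; integration by parts in `τ`
(`dS`, `dC` of `Prp`): `u = - S (cI C f1 + f0)`, `cI C f0 = - R (cI Sn f1)`; `(cI C f0)' = cI C f1`
(LIB); and `cI C f0 = u' `, which solves the same equation with source `f1`, so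
`cI C f0 t = - S (f1 t + cI C f2 t)`. -/
def LixStmt : Prop := ∀ (H : Type) [NormedAddCommGroup H] [InnerProductSpace ℝ H]
  [CompleteSpace H] (S R : H →L[ℝ] H) (C Sn : ℝ → H →L[ℝ] H), Prp H S R C Sn →
  ∀ (f0 f1 : ℝ → H) (t0 m N : ℝ), 1 ≤ t0 → 1 < m →
  (∀ t > t0, HasDerivAt f0 (f1 t) t) → ContinuousOn f1 (Ioi t0) →
  (∀ t > t0, ‖f0 t‖ ≤ N * t ^ (-m)) → (∀ t > t0, ‖f1 t‖ ≤ N * t ^ (-m)) →
  ∀ t > t0, HasDerivAt (fun r => - R (cI Sn f0 r)) (cI C f0 t) t ∧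
    HasDerivAt (fun r => cI C f0 r) (cI C f1 t) t ∧
    - R (cI Sn f0 t) = - S (cI C f1 t + f0 t) ∧ cI C f0 t = - R (cI Sn f1 t) ∧
    ∀ f2 : ℝ → H, (∀ r > t0, HasDerivAt f1 (f2 r) r) → ContinuousOn f2 (Ioi t0) →
      (∀ r > t0, ‖f2 r‖ ≤ N * r ^ (-m)) → cI C f0 t = - S (f1 t + cI C f2 t)

/-- POJ: powers of jets (no hypotheses).  Induction on `n`:
`pj (n+1) (w+x) - pj (n+1) (w+x') = mul (w+x) (pj n (w+x) - pj n (w+x')) + mul (x - x') (pj n (w+x'))`.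
Curves: `mul_mem`. -/
def PojStmt : Prop := ∀ (J : Type) [NormedAddCommGroup J] [NormedSpace ℝ J] (A : Jax J) (n : ℕ),
  (∀ (ρ : ℝ) (x y : J), ‖x‖ ≤ ρ → ‖y‖ ≤ ρ →
    ‖pj A n x‖ ≤ A.nmul ^ n * ρ ^ (n + 1) ∧
    ‖pj A n x - pj A n y‖ ≤ (n + 1) * A.nmul ^ n * ρ ^ n * ‖x - y‖) ∧
  ∀ t0 x, A.Cu t0 x → A.Cu t0 (fun t => pj A n (x t))

/-- FXJ: the fixed point (no hypotheses).  Proof: `f_0 = 0`, `f_(n+1) = Θ f_n`;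
`‖f_(n+1) t - f_n t‖ ≤ q^n 2 N0 t^(-m) ≤ 2 N0 q^n` (as `t ≥ t0 ≥ 1`), so `f_n` converges uniformly on
`(t0, ∞)` to `f` (`J` complete), `Cu t0 f` by `lim`, the bound passes to the limit, and
`‖Θ f t - Θ f_n t‖ ≤ q ‖f - f_n‖ → 0`. -/
def FxjStmt : Prop := ∀ (J : Type) [NormedAddCommGroup J] [NormedSpace ℝ J] [CompleteSpace J]
  (A : Jax J) (t0 m N0 q : ℝ) (Θ : (ℝ → J) → ℝ → J), 1 ≤ t0 → 0 ≤ m → 0 ≤ N0 → 0 ≤ q → q < 1 →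
  (∀ f, A.Cu t0 f → (∀ t > t0, ‖f t‖ ≤ N0 * t ^ (-m)) →
    A.Cu t0 (Θ f) ∧ ∀ t > t0, ‖Θ f t‖ ≤ N0 * t ^ (-m)) →
  (∀ f g N, 0 ≤ N → A.Cu t0 f → (∀ t > t0, ‖f t‖ ≤ N0 * t ^ (-m)) → A.Cu t0 g →
    (∀ t > t0, ‖g t‖ ≤ N0 * t ^ (-m)) → (∀ t > t0, ‖f t - g t‖ ≤ N * t ^ (-m)) →
    ∀ t > t0, ‖Θ f t - Θ g t‖ ≤ q * N * t ^ (-m)) →
  ∃ f, A.Cu t0 f ∧ (∀ t > t0, ‖f t‖ ≤ N0 * t ^ (-m)) ∧ ∀ t > t0, Θ f t = f t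

/-- NLJ: the nonlinear problem (uses POJ, FXJ).  Proof: `N0 = 2 |N1| + 1`,
`Θ f t = a (pj (2p) (w + K f) - pj (2p) w) + r`.  For `‖f t‖ ≤ N0 t^(-k)`:
`‖K f t‖ ≤ 2 C0 N0 t^(1-k) ≤ η t^(-1/(2p))`, `η = 2 C0 N0 t0^(1-k+1/(2p)) → 0` for `t0 → ∞`
(`k > 2`).  POJ with `ρ = (b + η) t^(-1/(2p))`, `n = 2p`: for `f, g` with `‖f - g‖ ≤ N t^(-k)`,
`K f - K g = K (f - g)` (`Ksl.sub`), so
`‖Θ f t - Θ g t‖ ≤ a (2p+1) nmul^(2p) (b+η)^(2p) t⁻¹ C0 (1/(k-1) + 1/t0) N t^(1-k) = q N t^(-k)`,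
and `q → a (2p+1) nmul^(2p) b^(2p) C0/(k-1) < 1/2` for `t0 → ∞`.  With `g = 0`, `K 0 = 0`:
`‖Θ f‖ ≤ (N0/2 + |N1|) t^(-k) ≤ N0 t^(-k)`.  FXJ. -/
def NljStmt : Prop := ∀ (J : Type) [NormedAddCommGroup J] [NormedSpace ℝ J] [CompleteSpace J]
  (A : Jax J) (C0 : ℝ) (K : (ℝ → J) → ℝ → J) (p : ℕ) (a k t1 b N1 : ℝ) (w r : ℝ → J),
  Ksl A C0 K → 0 < C0 → 1 ≤ p → 0 < a → 2 < k → 1 ≤ t1 → 0 ≤ b → A.Cu t1 w → A.Cu t1 r →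
  (∀ t > t1, ‖w t‖ ≤ b * t ^ (-(1 / (2 * (p : ℝ))))) → (∀ t > t1, ‖r t‖ ≤ N1 * t ^ (-k)) →
  a * (2 * (2 * p + 1) * C0 * A.nmul ^ (2 * p)) * b ^ (2 * p) < k - 1 →
  ∃ t0 ≥ t1, ∃ (N : ℝ) (f : ℝ → J), A.Cu t0 f ∧ (∀ t > t0, ‖f t‖ ≤ N * t ^ (-k)) ∧
    ∀ t > t0, f t = a • (pj A (2 * p) (w t + K f t) - pj A (2 * p) (w t)) + r t

/-- TMN: the solution (uses LIX, NLJ; compare TIM of BEF, `Helper91_BE01/ABS.lean`).  Proof: the jets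
`w~ t = jt (w · t)`, `r~ t = jt (r · t)` are curves with `‖w~ t‖ ≤ cj b t^(-1/(2p))`,
`‖r~ t‖ ≤ cj N1 t^(-k)`.  NLJ gives `t0, N, f`.  `f_j = pr j f`, `x = K f`, `x_j = pr j x = cI C f_j`
(`Kpr`), `x_0 = e (x0 (K f))`.  `x t = w 0 t + x0 (K f t)`, `u t = S (e (g t)) - R (cI Sn f_0 t)`,
`w = e (w 1) + x_1`, `h = e g - x_1 - f_0`, `k = e y - f_1 - x_2` (`w 0 t = SX y`).  By LIX
`u = S h`, `u' = e (w 0) + x_0`, `e (x t) = S k` (as `x_0 = - S (f_1 + x_2)`, `2 ≤ s`), the derivative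
of `e (x t)` is `e (w 1) + x_1`.  `f_0 = a0 e ((w 0 + x0 (K f))^(2p+1) - (w 0)^(2p+1)) + e (r 0)`
(`x0 (pj n y) = (x0 y)^(n+1)` by `x0_mul`), and `r 0 = w 1 + g + a0 (w 0)^(2p+1)`: the sum
`w + h + a0 e (x^(2p+1))` is `0`.  Energy: `(‖e x‖² + ‖R h‖²)^(1/2)` differs from
`(‖e (w 0)‖² + ‖R e g‖²)^(1/2)` by at most `C' t^(1-k)`, and `k - 1 > 1 > 1/(2p)`. -/
def TmnStmt : Prop := ∀ (X H J : Type) [NormedCommRing X] [NormedAlgebra ℝ X]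
  [NormedAddCommGroup H] [InnerProductSpace ℝ H] [CompleteSpace H] [NormedAddCommGroup J]
  [NormedSpace ℝ J] [CompleteSpace J] (W : Wx X H) (s p : ℕ) (A : Jax J) (cj C0 : ℝ)
  (K : (ℝ → J) → ℝ → J) (L : Jlk W s A cj) (a0 k t1 b N1 c C : ℝ) (w r : ℕ → ℝ → X)
  (g : ℝ → X), Ksl A C0 K → Kpr L K → 2 ≤ s → 1 ≤ p → 0 < a0 → 0 < C0 → 0 ≤ cj → 2 < k →
  a0 * (2 * (2 * p + 1) * C0 * A.nmul ^ (2 * p) * cj ^ (2 * p)) * b ^ (2 * p) < k - 1 →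
  Tmx W s p a0 k t1 b N1 c C w r g → Slu W p a0

end

end Pool.Agent.BEN
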