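import Pool.Agent.BEN.StmtsA

/-!
# Squad BEN (MP_be01ff_an): the final state theorem in all dimensions. Statements, part B: the spaces
`L^(2s/j)`, the jets, the bounds of `S` and `R`, and the theorem.

Landed and citable, in all dimensions: `Pool.Agent.BEL.H53.empA : EmpStmt`, `eigA : EigStmt`
(`Helper53_BEL/Fin.lean`; the rows SOB, LPE, CLO, RLC, CH2, LIN of squad BEL are in its imports),
`Pool.Agent.BE01.H72.alg : AlgStmt`, `spc : SpcStmt`, `Pool.Agent.BE01.H69.fre : FreStmt`,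
`Pool.Agent.BE01.H94.dns : DnsStmt`; model for WXC: `Pool/Agent/Helper70_BE01/Wvc2.lean`; model for
FNE: the second half of `Pool/Agent/Helper70_BE01/Fnl2.lean`.
-/

namespace Pool.Agent.BEN

open Set Filter Topology MeasureTheory
open scoped InnerProductSpace ENNReal
open Pool.Agent.BE01 Pool.Agent.BEL Pool.Agent.BEF Pool.Agent.BEH

noncomputable section

/-! ## Part B1: the jets -/

/-- QEF: the exponents. Computations in `ℝ≥0∞` (for `1 ≤ s`, `j ≤ s`: `2s/j ≥ 2 ≥ 1`, so the maximum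
is `2s/j`; `2s/0 = ∞`). -/
def QefStmt : Prop := ∀ s : ℕ, 1 ≤ s → qe s 0 = ∞ ∧ qe s s = 2 ∧
  (∀ j ≤ s, 2 ≤ qe s j ∧ (qe s j)⁻¹ = (j : ℝ≥0∞) / ((2 * s : ℕ) : ℝ≥0∞)) ∧
  (∀ j, 1 ≤ j → j ≤ s → qe s j = ENNReal.ofReal (2 * s / j)) ∧
  (∀ i j, i ≤ j → j ≤ s → qe s j ≤ qe s i) ∧
  ∀ i j, i + j ≤ s → (qe s i)⁻¹ + (qe s j)⁻¹ = (qe s (i + j))⁻¹

/-- HLD: Hölder. `MemLp.mul`, `eLpNorm_smul_le_mul_eLpNorm` or `eLpNorm_le_eLpNorm_mul_eLpNorm_..`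
(`ENNReal.HolderTriple`), `LinearMap.mkContinuous₂`. -/
def HldStmt : Prop := ∀ (T : Type) [MeasurableSpace T] (μ : Measure T) (p q r : ℝ≥0∞)
  [Fact (1 ≤ p)] [Fact (1 ≤ q)] [Fact (1 ≤ r)], p⁻¹ + q⁻¹ = r⁻¹ →
  ∃ B : Lp ℝ p μ →L[ℝ] Lp ℝ q μ →L[ℝ] Lp ℝ r μ,
    (∀ f g, B f g =ᵐ[μ] fun z => f z * g z) ∧ ∀ f g, ‖B f g‖ ≤ ‖f‖ * ‖g‖

/-- INQ: inclusions. `MemLp.mono_exponent`, `eLpNorm_le_eLpNorm_mul_rpow_measure_univ`: the factor is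
`μ(univ)^(1/q - 1/p) ≤ max 1 V` (exponent in `[0, 1]`). -/
def InqStmt : Prop := ∀ (T : Type) [MeasurableSpace T] (μ : Measure T) [IsFiniteMeasure μ]
  (p q : ℝ≥0∞) [Fact (1 ≤ p)] [Fact (1 ≤ q)] (V : ℝ), q ≤ p → μ.real univ ≤ V →
  ∃ ι : Lp ℝ p μ →L[ℝ] Lp ℝ q μ, (∀ y, ι y =ᵐ[μ] y) ∧ Function.Injective ι ∧
    ∀ y, ‖ι y‖ ≤ max 1 V * ‖y‖

/-- PRL: the product rule with weak derivatives (no hypotheses).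
`B (x r) (a2 (y r)) - B (x t) (a2 (y t)) = B (x r) (a2 (y r) - a2 (y t)) + B' (a1 (x r) - a1 (x t)) (y t)`;
divide by `r - t`; `x` is continuous at `t` (`HasDerivAt` as little-o, or `hasDerivAt_iff_tendsto_slope`). -/
def PrlStmt : Prop := ∀ (E1 E2 F1 F2 Z : Type) [NormedAddCommGroup E1] [NormedSpace ℝ E1]
  [NormedAddCommGroup E2] [NormedSpace ℝ E2] [NormedAddCommGroup F1] [NormedSpace ℝ F1]
  [NormedAddCommGroup F2] [NormedSpace ℝ F2] [NormedAddCommGroup Z] [NormedSpace ℝ Z]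
  (a1 : E1 →L[ℝ] F1) (a2 : E2 →L[ℝ] F2) (B : E1 →L[ℝ] F2 →L[ℝ] Z) (B' : F1 →L[ℝ] E2 →L[ℝ] Z)
  (x : ℝ → E1) (y : ℝ → E2) (x' : F1) (y' : F2) (t : ℝ), (∀ u v, B u (a2 v) = B' (a1 u) v) →
  ContinuousAt x t → HasDerivAt (fun r => a1 (x r)) x' t → HasDerivAt (fun r => a2 (y r)) y' t →
  HasDerivAt (fun r => B (x r) (a2 (y r))) (B (x t) y' + B' x' (y t)) t

/-- JMU: the product of jets (uses QEF, HLD): `(x y)_j = Σ_(i ≤ j) C(j, i) x_i y_(j-i)` (Leibniz), with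
HLD for `qe s i, qe s (j-i), qe s j`; `Σ_i C(j, i) = 2^j ≤ 2^s`; the norm of `Jt s μ` is the maximum
of the norms of the components. -/
def JmuStmt : Prop := ∀ (T : Type) [MeasurableSpace T] (μ : Measure T) [IsFiniteMeasure μ]
  (s : ℕ), 1 ≤ s → ∃ mul : Jt s μ →L[ℝ] Jt s μ →L[ℝ] Jt s μ,
    (∀ (x y : Jt s μ), ∀ j ≤ s, cmp (mul x y) j =ᵐ[μ] fun z =>
      ∑ i ∈ Finset.range (j + 1), (Nat.choose j i : ℝ) * (cmp x i z * cmp y (j - i) z)) ∧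
    ∀ x y, ‖mul x y‖ ≤ 2 ^ s * ‖x‖ * ‖y‖

/-- CUM: products of curves (uses QEF, HLD, INQ, PRL).  Proof: continuity: `mul` is continuous.
Component `j < s` in `L^(qe s (j+1))`: each term `C(j, i) x_i y_(j-i)` by PRL with `E1 = L^(qe s i)`,
`E2 = L^(qe s (j-i))`, `F1 = L^(qe s (i+1))`, `F2 = L^(qe s (j-i+1))`, `Z = L^(qe s (j+1))`, `B, B'` of
HLD; the sum of the derivatives `Σ C(j, i) (x_(i+1) y_(j-i) + x_i y_(j-i+1))` is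
`Σ C(j+1, i) x_i y_(j+1-i)` (Pascal). All identities between classes are almost everywhere. -/
def CumStmt : Prop := ∀ (T : Type) [MeasurableSpace T] (μ : Measure T) [IsFiniteMeasure μ]
  (s : ℕ) (mul : Jt s μ →L[ℝ] Jt s μ →L[ℝ] Jt s μ), 1 ≤ s →
  (∀ (x y : Jt s μ), ∀ j ≤ s, cmp (mul x y) j =ᵐ[μ] fun z =>
    ∑ i ∈ Finset.range (j + 1), (Nat.choose j i : ℝ) * (cmp x i z * cmp y (j - i) z)) →
  ∀ (t0 : ℝ) (x y : ℝ → Jt s μ), Cuj s μ t0 x → Cuj s μ t0 y →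
    Cuj s μ t0 (fun t => mul (x t) (y t))

/-- CUA: the other closure properties of the curves (no hypotheses).  The limit: `x n → y` uniformly
on `(t0, ∞)`, so the components and (for each continuous linear `ι`) their images converge
uniformly, `hasDerivAt_of_tendstoUniformlyOn` on `(t0, ∞)`; continuity: uniform limit. -/
def CuaStmt : Prop := ∀ (T : Type) [MeasurableSpace T] (μ : Measure T) [IsFiniteMeasure μ]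
  (s : ℕ) (t0 : ℝ), Cuj s μ t0 (fun _ => 0) ∧
  (∀ x y : ℝ → Jt s μ, Cuj s μ t0 x → (∀ t > t0, y t = x t) → Cuj s μ t0 y) ∧
  (∀ (t1 : ℝ) (x : ℝ → Jt s μ), t0 ≤ t1 → Cuj s μ t0 x → Cuj s μ t1 x) ∧
  (∀ x y : ℝ → Jt s μ, Cuj s μ t0 x → Cuj s μ t0 y → Cuj s μ t0 (fun t => x t + y t)) ∧
  (∀ (c : ℝ) (x : ℝ → Jt s μ), Cuj s μ t0 x → Cuj s μ t0 (fun t => c • x t)) ∧
  ∀ (x : ℕ → ℝ → Jt s μ) (y : ℝ → Jt s μ), (∀ n, Cuj s μ t0 (x n)) →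
    TendstoUniformlyOn x y atTop (Ioi t0) → Cuj s μ t0 y

/-- JLF: how to lift functions with values in `L²` to curves (uses QEF, INQ).  Proof: `x t j` is the
class of `y j t` in `L^(qe s j)`; continuous by the second hypothesis.  Derivative, `j < s`: let
`z r = ι (x r j)` in `L^(qe s (j+1))`, `Φ r = z t + ∫_t^r x_(j+1)`: `Φ' = x_(j+1)` (continuous), and
the images of `z` and `Φ` in `L²` have the same derivative `y (j+1)` near `t` and the same value at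
`t`, so they agree; the inclusion of `L^(qe s (j+1))` in `L²` is injective, so `z = Φ` near `t`. -/
def JlfStmt : Prop := ∀ (T : Type) [MeasurableSpace T] (μ : Measure T) [IsFiniteMeasure μ]
  (s : ℕ) (t0 : ℝ) (y : ℕ → ℝ → Lp ℝ 2 μ), 1 ≤ s →
  (∀ j ≤ s, ∀ t > t0, eLpNorm (y j t) (qe s j) μ < ∞) →
  (∀ j ≤ s, ∀ t > t0, Tendsto (fun r => eLpNorm ((y j r - y j t : Lp ℝ 2 μ) : T → ℝ) (qe s j) μ)
    (𝓝 t) (𝓝 0)) →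
  (∀ j < s, ∀ t > t0, HasDerivAt (y j) (y (j + 1) t) t) →
  ∃ x : ℝ → Jt s μ, Cuj s μ t0 x ∧ ∀ t > t0, ∀ j ≤ s, cmp (x t) j =ᵐ[μ] y j t

/-- JST: the structures `Jax`, `Jlk` (uses QEF, INQ, JMU, CUM, CUA).  Proof: `mul` of JMU,
`nmul = 2^s`, `Cu = Cuj s μ`.  `pr j` (`j ≤ s`): the inclusion of `L^(qe s j)` in `L²` after the
component `j` (`0` for `j > s`); `der`: apply the inclusion `L^(qe s (j+1)) → L²` to the derivative.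
`x0 x`: the element of `X` with `e (x0 x) = pr 0 x` (`Xok.lift`, `qe s 0 = ∞`), unique as `e` is
injective, so linear, `‖x0 x‖ ≤ ‖x‖`; `x0_mul` by `Xok.mul`.  `jt w`: the component `j` is the class of
`e (w j)` (bounded by `‖w j‖`), `‖jt w‖ ≤ max 1 V * M`; it is linear and continuous in
`(w 0, …, w s)`, so `cu_jt` follows: the components are continuous and differentiable with values
in `X`. -/
def JstStmt : Prop := ∀ (T : Type) [MeasurableSpace T] (μ : Measure T) [IsFiniteMeasure μ]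
  (s : ℕ) (V : ℝ) (X : Type) [NormedCommRing X] [NormedAlgebra ℝ X] (W : Wx X (Lp ℝ 2 μ)),
  1 ≤ s → μ.real univ ≤ V → Xok W → ∃ (A : Jax (Jt s μ)) (L : Jlk W s A (max 1 V)),
    A.nmul = 2 ^ s ∧ (∀ t0 x, A.Cu t0 x ↔ Cuj s μ t0 x) ∧
    ∀ x, ∀ j ≤ s, L.pr j x =ᵐ[μ] cmp x j

/-- SOL: the wave equation with a source, for jets (uses LiaStmt of BE01, LIX, QEF, INQ, JLF).  Proof:
`V' = max 1 V`; `f` a curve, `‖f t‖ ≤ N t^(-m)`, `f_j = pr j f`, `‖f_j t‖ ≤ V' N t^(-m)` in `L²`,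
`y_j = cI C f_j`.  `(y_j)' = y_(j+1)` (LIX for `f_j, f_(j+1)`), `y_(s-1) = - R (cI Sn f_s)` (LIX), `y_j = - S (f_(j+1) + y_(j+2))` for
`j ≤ s - 2`.  Norms in `L^(qe s j)`: `‖y_s‖ ≤ V' N/(m-1) t^(1-m)` (LIA), `‖y_(s-1)‖ ≤ C0 V' N/(m-1)
t^(1-m)` (`Sbd.R`), `‖y_j‖ ≤ C0 (V' N t^(-m) + ‖y_(j+2)‖)` (`Sbd.S`; `f_(j+1)` is in `L^(qe s (j+1))`,
INQ), and `t^(-m) ≤ t^(1-m)/t0`: all are at most `V' (2(1+C0))^(s+1) (1/(m-1) + 1/t0) N t^(1-m)`.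
Continuity in `L^(qe s j)`: the same formulas for differences (`S`, `R` are linear; `f` is
continuous in `Jt`, `cI C f_s` and `cI Sn f_s` in `L²` by LIA).  JLF gives the curve.  `K f t` := the
element `v` of `Jt s μ` with `pr j v = cI C (pr j ∘ f) t` for all `j ≤ s` if there is one (unique), and
`0` otherwise.  `sub`: the integrals are linear (integrable by LIA). -/
def SolStmt : Prop := ∀ (T : Type) [MeasurableSpace T] (μ : Measure T) [IsFiniteMeasure μ]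
  (s : ℕ) (V C0 : ℝ) (X : Type) [NormedCommRing X] [NormedAlgebra ℝ X] (W : Wx X (Lp ℝ 2 μ))
  (A : Jax (Jt s μ)) (L : Jlk W s A (max 1 V)), 2 ≤ s → μ.real univ ≤ V → 0 < C0 →
  Sbd W s C0 → (∀ t0 x, A.Cu t0 x ↔ Cuj s μ t0 x) → (∀ x, ∀ j ≤ s, L.pr j x =ᵐ[μ] cmp x j) →
  ∃ K : (ℝ → Jt s μ) → ℝ → Jt s μ, Ksl A (max 1 V * (2 * (1 + C0)) ^ (s + 1)) K ∧ Kpr L K

/-! ## Part B2: the bounds of `S` and `R`, uniformly for subdomains -/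

/-- SBU: the Sobolev inequality with the exponent `pS d = 8d/(4d-5)`, uniformly (uses the landed SOB
of squad BEL).  Proof: `2 ≤ pS d`, `(d - 2) pS d ≤ 2 d`.  A test function of `Ω'` is one of `Ω`, with
the same norms: SOB for `Ω` gives the constant.  Then density, as in LPE of BEL: `∇ψ_n → G`,
`ψ_n → ι' G` in `L²`, almost everywhere for a subsequence, Fatou. -/
def SbuStmt : Prop := ∀ (d : ℕ) (Ω : Set (En d)), 2 ≤ d → Dom Ω → ∃ C : ℝ, 0 < C ∧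
  ∀ Ω' : Set (En d), Dom Ω' → Ω' ⊆ Ω → ∀ ι : VV Ω' →L[ℝ] Lp ℝ 2 (mu Ω'), Emb2 Ω' ι →
    ∀ G : VV Ω', eLpNorm (ι G) (ENNReal.ofReal (pS d)) (mu Ω') ≤ ENNReal.ofReal (C * ‖G‖)

/-- LVU: level sets (uses QEF, SBU and the landed `Ch2Stmt`, `Pool.Agent.BEL.H35.ch2`; model:
`Helper91_BE01/LVL.lean`).  Proof: `p = 2d/(j+2)`, `P = pS d`, `u = ι G`, `A_k = {k < u}`.  Let `Φ` be
smooth, `Φ = 0` on `(-∞, k]`, `0 ≤ Φ' ≤ 1`, `Φ s ≥ (h-k)/2` for `s ≥ h` (a primitive of a smooth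
transition).  Ch2: `G'` with `ι G' = Φ(u)`, `G' = Φ'(u) G`; `‖G'‖² = ∫ Φ'(u)² |G|² ≤ ∫ Φ'(u) |G|² =
⟪G, G'⟫ = ⟪f, Φ(u)⟫ ≤ ‖f‖_p ‖Φ(u)‖_P μ(A_k)^(1-1/p-1/P)` (Hölder with three factors, `Φ(u) = 0` off
`A_k`).  SBU: `‖Φ(u)‖_P² ≤ C² ‖G'‖²`, so `(h-k)/2 μ(A_h)^(1/P) ≤ ‖Φ(u)‖_P ≤ C² F μ(A_k)^(1-1/p-1/P)`;
raise to the power `P`: `P (1 - 1/p) - 1 = (4d-4j-3)/(4d-5)`. -/
def LvuStmt : Prop := ∀ (d : ℕ) (Ω : Set (En d)), 2 ≤ d → Dom Ω → ∃ C : ℝ, 0 < C ∧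
  ∀ Ω' : Set (En d), Dom Ω' → Ω' ⊆ Ω → ∀ ι : VV Ω' →L[ℝ] Lp ℝ 2 (mu Ω'), Emb2 Ω' ι →
  ∀ (f : Lp ℝ 2 (mu Ω')) (G : VV Ω') (F : ℝ), (∀ G' : VV Ω', ⟪G, G'⟫_ℝ = ⟪f, ι G'⟫_ℝ) →
  0 ≤ F → ∀ j : ℕ, j + 2 ≤ d → eLpNorm f (qe d (j + 2)) (mu Ω') ≤ ENNReal.ofReal F →
  ∀ k h : ℝ, 0 ≤ k → k < h → (mu Ω').real {x | h < ι G x} ≤
    (C * F / (h - k)) ^ pS d *
      (mu Ω').real {x | k < ι G x} ^ ((4 * (d : ℝ) - 4 * j - 3) / (4 * d - 5))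

/-- STL: the lemma of Stampacchia (no hypotheses), `V' = max 1 V`.  First part (`β > 1`):
`μ = P/(β-1)`, `K^P = V'^(β-1) 2^(μ β)`, `k_n = K C (1 - 2^(-n))`: by induction
`Φ(k_n) ≤ V' 2^(-n μ)`: `Φ(k_(n+1)) ≤ (2^(n+1)/K)^P Φ(k_n)^β ≤ V' 2^(-(n+1) μ)` as
`(n+1)(P + μ) - n μ β = μ β`.  So `Φ(K C) ≤ Φ(k_n) → 0`.  Second part (`β < 1`): `ν = P/(1-β)`,
`M_n = 2^(n ν) Φ(2^n C)`: `M_(n+1) ≤ 2^ν M_n^β` (`k = 2^n C`, `h = 2^(n+1) C`, `ν - P - ν β = 0`), so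
`M_n ≤ K' := max V' 2^(ν/(1-β))` for all `n`; for `2^n C ≤ h < 2^(n+1) C`:
`Φ h ≤ K' 2^(-n ν) ≤ K' 2^ν (C/h)^ν`. -/
def StlStmt : Prop := ∀ P β V : ℝ, 0 < P → 0 < β → 0 ≤ V →
  (1 < β → ∃ K : ℝ, 0 < K ∧ ∀ (C : ℝ) (Φ : ℝ → ℝ), 0 < C → Antitone Φ →
    (∀ h, 0 ≤ Φ h ∧ Φ h ≤ V) →
    (∀ k h : ℝ, 0 ≤ k → k < h → Φ h ≤ (C / (h - k)) ^ P * Φ k ^ β) → Φ (K * C) = 0) ∧
  (β < 1 → ∃ K : ℝ, 0 < K ∧ ∀ (C : ℝ) (Φ : ℝ → ℝ), 0 < C → Antitone Φ →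
    (∀ h, 0 ≤ Φ h ∧ Φ h ≤ V) →
    (∀ k h : ℝ, 0 ≤ k → k < h → Φ h ≤ (C / (h - k)) ^ P * Φ k ^ β) →
    ∀ h ≥ C, Φ h ≤ K * (C / h) ^ (P / (1 - β)))

/-- LPB: from the tails to the norm (no hypotheses).  Proof: `∫ |u|^p = p ∫_0^∞ h^(p-1) μ{|u| > h} dh`
(`lintegral_rpow_eq_lintegral_meas_lt_mul`) `≤ V C^p + p K C^ν ∫_C^∞ h^(p-1-ν) dh =
C^p (V + p K/(ν-p))`. -/
def LpbStmt : Prop := ∀ p ν K V : ℝ, 1 ≤ p → p < ν → 0 ≤ K → 0 ≤ V → ∃ C' : ℝ, 0 < C' ∧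
  ∀ (T : Type) [MeasurableSpace T] (μ : Measure T) [IsFiniteMeasure μ] (u : T → ℝ) (C : ℝ),
  0 < C → AEStronglyMeasurable u μ → μ.real univ ≤ V →
  (∀ h ≥ C, μ.real {x | h < |u x|} ≤ K * (C / h) ^ ν) →
  eLpNorm u (ENNReal.ofReal p) μ ≤ ENNReal.ofReal (C' * C)

/-- SPQ: `S : L^(2d/(j+2)) → L^(2d/j)` (uses QEF, LVU, STL, LPB).  Proof: if the norm of `f` is `∞` the
claim is trivial; let `F` be the norm.  If `F = 0` then `f = 0` and `G = 0`.  Otherwise `C = C1 F`,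
`C1` of LVU, for `G` and for `- G` (with `- f`): `Φ h = μ{h < ± ι G}`, `V = |Ω|`, `P = pS d`,
`β = (4d-4j-3)/(4d-5)`.  `j = 0`: `β > 1`, `|ι G| ≤ K C` almost everywhere.  `j ≥ 1`: `0 < β < 1`,
`P/(1-β) = 4d/(2j-1) > 2d/j`, LPB with `2K`. -/
def SpqStmt : Prop := ∀ (d : ℕ) (Ω : Set (En d)), 2 ≤ d → Dom Ω → ∃ C : ℝ, 0 < C ∧
  ∀ Ω' : Set (En d), Dom Ω' → Ω' ⊆ Ω → ∀ ι : VV Ω' →L[ℝ] Lp ℝ 2 (mu Ω'), Emb2 Ω' ι →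
  ∀ (f : Lp ℝ 2 (mu Ω')) (G : VV Ω'), (∀ G' : VV Ω', ⟪G, G'⟫_ℝ = ⟪f, ι G'⟫_ℝ) →
  ∀ j : ℕ, j + 2 ≤ d → eLpNorm (ι G) (qe d j) (mu Ω') ≤
    ENNReal.ofReal C * eLpNorm f (qe d (j + 2)) (mu Ω')

/-- RPQ: `R : L² → L^(2d/(d-1))` (uses QEF, SBU).  Proof:
`‖U (R h)‖² = ⟪h, ι (U (R h))⟫ = ⟪h, R (R h)⟫ = ‖R h‖²`; the range of `R` is dense (`R` is symmetric and injective), so `‖U h‖ = ‖h‖` for all `h`.  SBU, and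
`qe d (d-1) = 2d/(d-1) ≤ pS d`, finite measure `≤ |Ω|`. -/
def RpqStmt : Prop := ∀ (d : ℕ) (Ω : Set (En d)), 2 ≤ d → Dom Ω → ∃ C : ℝ, 0 < C ∧
  ∀ Ω' : Set (En d), Dom Ω' → Ω' ⊆ Ω → ∀ ι : VV Ω' →L[ℝ] Lp ℝ 2 (mu Ω'), Emb2 Ω' ι →
  ∀ (R : Lp ℝ 2 (mu Ω') →L[ℝ] Lp ℝ 2 (mu Ω')) (U : Lp ℝ 2 (mu Ω') →L[ℝ] VV Ω'),
  (∀ h, R h = ι (U h)) → (∀ h k, ⟪R h, k⟫_ℝ = ⟪h, R k⟫_ℝ) → Function.Injective R →
  (∀ (h : Lp ℝ 2 (mu Ω')) (G : VV Ω'), ⟪U (R h), G⟫_ℝ = ⟪h, ι G⟫_ℝ) →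
  ∀ f : Lp ℝ 2 (mu Ω'), eLpNorm (R f) (qe d (d - 1)) (mu Ω') ≤ ENNReal.ofReal (C * ‖f‖)

/-- WXC: the operators of a domain, with uniform bounds (uses QEF, SPQ, RPQ; landed: `empA`, RLC,
CLO of BEL, `H72.alg`, `spc`, `dns`).  Copy and edit `Helper70_BE01/Wvc2.lean`: `ι` from EMP,
`S = ι ι†` compact (RLC), `R, C, Sn, U` from SPC (`DenseRange ι`: test functions), `X` from ALG,
`SX`: `e x` is bounded, so `S (e x)` is bounded (`Sbd.S` with `j = 0` and the inclusion of `L^∞` in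
`L^d`), linear and continuous; `Z h = ι† h`.  `⟪U (R h), G⟫ = ⟪h, ι G⟫`: `ι (U (R h)) = S h =
ι (ι† h)`, `ι` injective (CLO). -/
def WxcStmt : Prop := ∀ (d : ℕ) (Ω : Set (En d)), 2 ≤ d → Dom Ω → ∃ C0 : ℝ, 0 < C0 ∧
  ∀ Ω' : Set (En d), Dom Ω' → Ω' ⊆ Ω → ∃ (X : Type) (_ : NormedCommRing X)
    (_ : NormedAlgebra ℝ X) (W : Wx X (Lp ℝ 2 (mu Ω')))
    (Z : Lp ℝ 2 (mu Ω') →L[ℝ] Lp (En d) 2 (mu Ω')), Xok W ∧ Wok Ω' W Z ∧ Sbd W d C0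

/-- BTS: bootstrap (uses QEF, INQ).  Proof: `q ∈ L² = L^(qe s s)`; if `q ∈ L^(qe s (j+2))` then
`S q ∈ L^(qe s j)` and `q = F + c S q ∈ L^(qe s j)`; downwards from `s` in steps of 2 to `j = 0` or
`j = 1`; from `1` with the inclusion `L^(qe s 1) ⊂ L^(qe s 2)` to `0`: `q ∈ L^∞`, `Xok.lift`. -/
def BtsStmt : Prop := ∀ (T : Type) [MeasurableSpace T] (μ : Measure T) [IsFiniteMeasure μ]
  (s : ℕ) (C0 : ℝ) (X : Type) [NormedCommRing X] [NormedAlgebra ℝ X] (W : Wx X (Lp ℝ 2 μ)),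
  2 ≤ s → Xok W → Sbd W s C0 → ∀ (q : Lp ℝ 2 μ) (y : X) (c : ℝ), q = W.e y + c • W.S q →
  ∃ x, W.e x = q

/-- SLX: the eigenspace and solvability (uses BTS, `BEF.FrmStmt`, `BE01.FreStmt`).  Proof: FRM with
`l = ω²` (`S` is symmetric, `RR`, `R_symm`) gives an orthonormal basis of the eigenspace in `H`; by
BTS (`y = 0`) it comes from `X`, and `ω² SX φ_i = φ_i` as `e` is injective.  Solvability: in `H` by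
FRM and FRE, then BTS with `y = F`, and `e` injective. -/
def SlxStmt : Prop := ∀ (T : Type) [MeasurableSpace T] (μ : Measure T) [IsFiniteMeasure μ]
  (s : ℕ) (C0 ω : ℝ) (X : Type) [NormedCommRing X] [NormedAlgebra ℝ X] (W : Wx X (Lp ℝ 2 μ)),
  2 ≤ s → Xok W → Sbd W s C0 → IsCompactOperator W.S → 0 < ω →
  ∃ (m : ℕ) (φ : Fin m → X), Evx W ω φ ∧
    (∀ u, u = (ω ^ 2) • W.S u → u ∈ Submodule.span ℝ (Set.range fun i => W.e (φ i))) ∧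
    ∀ M : ℕ, (∀ n : ℕ, Odd n → 3 ≤ n → n ≤ M → ∀ u, u = ((n : ℝ) ^ 2 * ω ^ 2) • W.S u → u = 0) →
      Slx W ω φ M

/-- SLO: the same for a simple eigenvalue (uses BTS, `BE01.FreStmt`). -/
def SloStmt : Prop := ∀ (T : Type) [MeasurableSpace T] (μ : Measure T) [IsFiniteMeasure μ]
  (s M : ℕ) (C0 ω : ℝ) (X : Type) [NormedCommRing X] [NormedAlgebra ℝ X] (W : Wx X (Lp ℝ 2 μ))
  (φ : X), 2 ≤ s → Xok W → Sbd W s C0 → IsCompactOperator W.S → 0 < ω → ‖W.e φ‖ = 1 →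
  (ω ^ 2) • W.SX φ = φ → (∀ u, u = (ω ^ 2) • W.S u → ∃ c : ℝ, u = c • W.e φ) →
  (∀ n : ℕ, Odd n → 3 ≤ n → n ≤ M → ∀ u, u = ((n : ℝ) ^ 2 * ω ^ 2) • W.S u → u = 0) →
  Evx W ω (fun _ : Fin 1 => φ) ∧ Slx W ω (fun _ : Fin 1 => φ) M

/-! ## Part B3: the theorem -/

/-- FNE: the end (no hypotheses; copy the end of `Helper70_BE01/Fnl2.lean`): from `Slu` to the
solution of the equation on the domain, shifted in time by `t0 + 1`. -/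
def FneStmt : Prop := ∀ (d : ℕ) (Ω : Set (En d)) (X : Type) [NormedCommRing X]
  [NormedAlgebra ℝ X] (W : Wx X (Lp ℝ 2 (mu Ω)))
  (Z : Lp ℝ 2 (mu Ω) →L[ℝ] Lp (En d) 2 (mu Ω)) (p : ℕ) (a : ℝ), Dom Ω → 1 ≤ p → 0 < a →
  Xok W → Wok Ω W Z → Slu W p a → Rt Ω a ((2 * p : ℕ) : ℝ)

/-- MAI: the main theorem (uses ASN, TMN, JST, SOL, FNE).  Proof: `V = |Ω|`, `V' = max 1 V`,
`C1 = V' (2(1+C0))^(d+1)`, `κ = 2(2p+1) C1 (2^d)^(2p) V'^(2p)`, `s = d`; `M` from ASN.  Given `Ω', W`: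
JST and SOL with `μ = mu Ω'` (`μ.real univ = |Ω'| ≤ V`), ASN gives `Tmx` with
`a κ b^(2p) < k - 1`, TMN gives `Slu`, FNE. -/
def MaiStmt : Prop := ∀ (d : ℕ) (Ω : Set (En d)) (p : ℕ) (C0 B β : ℝ), 2 ≤ d → Dom Ω → 1 ≤ p →
  0 < C0 → 0 < B → 0 < β → ∃ M : ℕ, ∀ Ω' : Set (En d), Dom Ω' → Ω' ⊆ Ω →
  ∀ (X : Type) [NormedCommRing X] [NormedAlgebra ℝ X] (W : Wx X (Lp ℝ 2 (mu Ω')))
  (Z : Lp ℝ 2 (mu Ω') →L[ℝ] Lp (En d) 2 (mu Ω')), Xok W → Wok Ω' W Z → Sbd W d C0 →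
  ∀ (m : ℕ) (a ω : ℝ) (φ : Fin m → X), 1 ≤ m → 0 < a → 0 < ω → ω ≤ B → ∑ i, ‖φ i‖ ≤ B →
  Evx W ω φ → Dmp W p φ β → Slx W ω φ M → Rt Ω' a ((2 * p : ℕ) : ℝ)

/-- UNI: uniform version for simple eigenvalues (uses WXC, MAI, SLO, NEO).  Proof: `C0` of WXC,
`ω = √l ≤ max B 1`, `φ` comes from `X` with norm `≤ B` (`Xok.lift`),
`⟪e φ^(2p+1), e φ⟫ = ∫ φ^(2p+2) ≥ β`, NEO. -/
def UniStmt : Prop := ∀ (d : ℕ) (Ω : Set (En d)) (p : ℕ) (B β : ℝ), 2 ≤ d → Dom Ω → 1 ≤ p →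
  0 < β → ∃ M : ℕ, ∀ Ω' : Set (En d), Dom Ω' → Ω' ⊆ Ω → ∀ (a l : ℝ) (φ : Lp ℝ 2 (mu Ω')),
  0 < a → 0 < l → l ≤ B → ‖φ‖ = 1 → (∀ᵐ x ∂(mu Ω'), |φ x| ≤ B) →
  β ≤ ∫ x, φ x ^ (2 * p + 2) ∂(mu Ω') → IsEig Ω' l φ →
  (∀ u, IsEig Ω' l u → ∃ c : ℝ, u = c • φ) →
  (∀ n : ℕ, Odd n → 3 ≤ n → n ≤ M → ∀ u, IsEig Ω' ((n : ℝ) ^ 2 * l) u → u = 0) →
  Rt Ω' a ((2 * p : ℕ) : ℝ)

/-- FNN: Theorem F in all dimensions, finite form (uses WXC, MAI, SLX, NEX).  Proof: WXC with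
`Ω' = Ω`; `l > 0` and `ω = √l`; SLX: `m ≥ 1` because `φ ≠ 0` is in the span; NEX (`⟪e x^(2p+1), e x⟫ =
∫ (e x)^(2p+2) > 0`); MAI with `B = max ω (Σ ‖φ_i‖) + 1`, `β` of NEX. -/
def FnnStmt : Prop := ∀ (d : ℕ) (Ω : Set (En d)) (p : ℕ) (l : ℝ) (φ : Lp ℝ 2 (mu Ω)),
  2 ≤ d → Dom Ω → 1 ≤ p → φ ≠ 0 → IsEig Ω l φ →
  ∃ M : ℕ, (∀ n : ℕ, Odd n → 3 ≤ n → n ≤ M → ∀ u, IsEig Ω ((n : ℝ) ^ 2 * l) u → u = 0) →
    ∀ a : ℝ, 0 < a → Rt Ω a ((2 * p : ℕ) : ℝ)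

/-- FNG: Theorem F in all dimensions (uses FNN; copy FNF of BEF): the largest odd `n` such that
`n² l` is an eigenvalue, and FNN for `n² l`. -/
def FngStmt : Prop := ∀ (d : ℕ) (Ω : Set (En d)) (p : ℕ) (a l : ℝ) (φ : Lp ℝ 2 (mu Ω)),
  2 ≤ d → Dom Ω → 1 ≤ p → 0 < a → φ ≠ 0 → IsEig Ω l φ →
  {n : ℕ | Odd n ∧ ∃ u : Lp ℝ 2 (mu Ω), u ≠ 0 ∧ IsEig Ω ((n : ℝ) ^ 2 * l) u}.Finite →
  Rt Ω a ((2 * p : ℕ) : ℝ)

end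

end Pool.Agent.BEN
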